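import Mathlib

/-!
# A cyclic lattice in the functions on a finite group with a parity condition
-/

set_option autoImplicit false
set_option linter.unusedSectionVars false
set_option linter.unusedVariables false

open Matrix

namespace Pool.Agent.R913.Zag

variable {G : Type} [Group G] {V : Type} [AddCommGroup V] [Module ℚ V] {ι : Type} [Fintype ι] [DecidableEq ι]

/-- The matrix of the values of `reg` at the translates of `v j` by `g i`. -/
noncomputable def vmat (κ : G →* (V →ₗ[ℚ] V)) (reg : V →ₗ[ℚ] ℝ) (g : ι → G) (v : ι → V) : Matrix ι ι ℝ :=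
  Matrix.of fun i j => reg (κ (g i) (v j))

/-- the real extension of the function attached to a family of vectors -/
noncomputable def rext (κ : G →* (V →ₗ[ℚ] V)) (reg : V →ₗ[ℚ] ℝ) (b : ι → V) (x : ι → ℝ) (h : G) : ℝ :=
  ∑ k, x k * reg (κ h (b k))

variable {κ : G →* (V →ₗ[ℚ] V)} {reg : V →ₗ[ℚ] ℝ} {g : ι → G} {c : G} {ε : ℝ}

theorem rext_rat (b : ι → V) (q : ι → ℚ) (h : G) :
    reg (κ h (∑ k, q k • b k)) = rext κ reg b (fun k => (q k : ℝ)) h := by
  unfold rext
  rw [map_sum, map_sum]
  refine Finset.sum_congr rfl fun k _ => ?_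
  rw [map_smul, map_smul]
  exact Rat.smul_def _ _

/-- a real point with non-zero determinant gives a rational one -/
theorem exists_rat (b : ι → V) (x : ι → ℝ)
    (hx : (Matrix.of fun i j => rext κ reg b x (g i * (g j)⁻¹)).det ≠ 0) :
    ∃ q : ι → ℚ, (Matrix.of fun i j => reg (κ (g i * (g j)⁻¹) (∑ k, q k • b k))).det ≠ 0 := by
  have hc : Continuous fun y : ι → ℝ => (Matrix.of fun i j => rext κ reg b y (g i * (g j)⁻¹)).det := by
    refine Continuous.matrix_det ?_
    refine continuous_matrix fun i j => ?_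
    unfold rext
    simp only [Matrix.of_apply]
    exact continuous_finsetSum _ fun k _ => (continuous_apply k).mul continuous_const
  have ho : IsOpen {y : ι → ℝ | (Matrix.of fun i j => rext κ reg b y (g i * (g j)⁻¹)).det ≠ 0} :=
    isOpen_ne_fun hc continuous_const
  have hd : DenseRange (fun q : ι → ℚ => fun k => ((q k : ℚ) : ℝ)) :=
    DenseRange.piMap fun _ => Rat.denseRange_cast
  obtain ⟨q, hq⟩ := hd.exists_mem_open ho ⟨x, hx⟩
  refine ⟨q, ?_⟩
  have h1 : (Matrix.of fun i j => reg (κ (g i * (g j)⁻¹) (∑ k, q k • b k))) =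
      Matrix.of fun i j => rext κ reg b (fun k => (q k : ℝ)) (g i * (g j)⁻¹) := by
    ext i j
    exact rext_rat b q _
  rw [h1]
  exact hq

/-- The representatives `g i`: one of each pair `x`, `c x`; none if `c = 1` and the sign is not `1`. -/
structure IsList (c : G) (ε : ℝ) (g : ι → G) : Prop where
  inj : Function.Injective g
  apart : c ≠ 1 → ∀ i j, g i ≠ c * g j
  all : c ≠ 1 ∨ ε = 1 → ∀ x, ∃ i, x = g i ∨ x = c * g i
  none : c = 1 → ε ≠ 1 → IsEmpty ι

open Classical in
/-- the function supported on `1` and `c` -/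
noncomputable def pairFun (c : G) (ε : ℝ) (h : G) : ℝ := if h = 1 then 1 else if h = c then ε else 0

theorem pairFun_conj (hc : c * c = 1) (hε : ε * ε = 1) (h1 : c ≠ 1 ∨ ε = 1) (h : G) :
    pairFun c ε (c * h) = ε * pairFun c ε h := by
  unfold pairFun
  by_cases hh : h = 1
  · subst hh
    rw [mul_one, if_pos rfl, if_pos rfl, mul_one]
    split_ifs with h2
    · rcases h1 with h1 | h1
      · exact absurd h2 h1
      · exact h1.symm
    · rfl
  · by_cases hh2 : h = c
    · subst hh2
      rw [hc, if_pos rfl, if_neg hh, if_pos rfl, hε]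
    · have h3 : c * h ≠ 1 := by
        intro h4
        apply hh2
        have h5 : c * (c * h) = c * 1 := by rw [h4]
        rw [← mul_assoc, hc, one_mul, mul_one] at h5
        exact h5
      have h4 : c * h ≠ c := by
        intro h4
        apply hh
        exact mul_left_cancel (h4.trans (mul_one c).symm)
      rw [if_neg h3, if_neg h4, if_neg hh, if_neg hh2, mul_zero]

theorem rext_conj (hreg : ∀ v, reg (κ c v) = ε * reg v) (b : ι → V) (x : ι → ℝ) (h : G) :
    rext κ reg b x (c * h) = ε * rext κ reg b x h := by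
  unfold rext
  rw [Finset.mul_sum]
  refine Finset.sum_congr rfl fun k _ => ?_
  rw [map_mul]
  change x k * reg (κ c (κ h (b k))) = _
  rw [hreg]
  ring

/-- the function supported on `1` and `c` comes from a real vector -/
theorem exists_real (hc : c * c = 1) (hε : ε * ε = 1) (h1 : c ≠ 1 ∨ ε = 1) (hg : IsList c ε g)
    (hreg : ∀ v, reg (κ c v) = ε * reg v) (b : ι → V) (hb : (vmat κ reg g b).det ≠ 0) :
    ∃ x : ι → ℝ, ∀ h, rext κ reg b x h = pairFun c ε h := by
  refine ⟨(vmat κ reg g b)⁻¹ *ᵥ fun i => pairFun c ε (g i), ?_⟩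
  set x := (vmat κ reg g b)⁻¹ *ᵥ fun i => pairFun c ε (g i) with hx
  have h2 : ∀ i, rext κ reg b x (g i) = pairFun c ε (g i) := by
    intro i
    have h3 : (vmat κ reg g b) *ᵥ x = fun i => pairFun c ε (g i) := by
      rw [hx, Matrix.mulVec_mulVec, Matrix.mul_nonsing_inv _ (isUnit_iff_ne_zero.2 hb), Matrix.one_mulVec]
    have h4 := congrFun h3 i
    rw [← h4]
    exact Finset.sum_congr rfl fun k _ => mul_comm _ _
  intro h
  obtain ⟨i, rfl | rfl⟩ := hg.all h1 h
  · exact h2 i
  · rw [rext_conj hreg, pairFun_conj hc hε h1, h2]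

theorem pairFun_div (h1 : c ≠ 1 ∨ ε = 1) (hg : IsList c ε g) (i j : ι) :
    pairFun c ε (g i * (g j)⁻¹) = if i = j then 1 else 0 := by
  unfold pairFun
  by_cases hij : i = j
  · subst hij
    rw [mul_inv_cancel, if_pos rfl, if_pos rfl]
  · have h2 : g i * (g j)⁻¹ ≠ 1 := fun h => hij (hg.inj (mul_inv_eq_one.1 h))
    rw [if_neg h2, if_neg hij, if_neg]
    intro h3
    have h4 : g i = c * g j := by rw [← h3, inv_mul_cancel_right]
    by_cases hc1 : c = 1
    · rw [hc1, one_mul] at h4
      exact hij (hg.inj h4)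
    · exact hg.apart hc1 i j h4

theorem empty_or (hg : IsList c ε g) : (c ≠ 1 ∨ ε = 1) ∨ IsEmpty ι := by
  by_cases h1 : c ≠ 1 ∨ ε = 1
  · exact Or.inl h1
  · refine Or.inr (hg.none ?_ fun h2 => h1 (Or.inr h2))
    by_contra h2
    exact h1 (Or.inl h2)

/-- **One vector**: the conjugates of one vector form a basis. -/
theorem exists_vector (hc : c * c = 1) (hε : ε * ε = 1) (hg : IsList c ε g)
    (hreg : ∀ v, reg (κ c v) = ε * reg v) (b : ι → V) (hb : (vmat κ reg g b).det ≠ 0) :
    ∃ v : V, (Matrix.of fun i j => reg (κ (g i * (g j)⁻¹) v)).det ≠ 0 := by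
  rcases empty_or hg with h1 | h1
  · obtain ⟨x, hx⟩ := exists_real hc hε h1 hg hreg b hb
    obtain ⟨q, hq⟩ := exists_rat (κ := κ) (reg := reg) (g := g) b x (by
      have h2 : (Matrix.of fun i j => rext κ reg b x (g i * (g j)⁻¹)) = 1 := by
        ext i j
        rw [Matrix.of_apply, hx, pairFun_div h1 hg, Matrix.one_apply]
      rw [h2, Matrix.det_one]
      exact one_ne_zero)
    exact ⟨_, hq⟩
  · refine ⟨0, ?_⟩
    rw [Matrix.det_isEmpty]
    exact one_ne_zero

/-- If the sign is `1`, the vector may be taken invariant under `c`. -/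
theorem exists_vector_fixed (hc : c * c = 1) (hε : ε = 1) (hg : IsList c ε g)
    (hreg : ∀ v, reg (κ c v) = ε * reg v) (b : ι → V) (hb : (vmat κ reg g b).det ≠ 0) :
    ∃ v : V, κ c v = v ∧ (Matrix.of fun i j => reg (κ (g i * (g j)⁻¹) v)).det ≠ 0 := by
  obtain ⟨x, hx⟩ := exists_real hc (by rw [hε, one_mul]) (Or.inr hε) hg hreg b hb
  have h3 : ∀ h, rext κ reg (fun k => b k + κ c (b k)) x h = pairFun c ε h + pairFun c ε (h * c) := by
    intro h
    rw [← hx h, ← hx (h * c)]
    unfold rext
    rw [← Finset.sum_add_distrib]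
    refine Finset.sum_congr rfl fun k _ => ?_
    rw [map_add, map_add, map_mul, mul_add]
    rfl
  have h4 : ∀ h, pairFun c ε (h * c) = pairFun c ε h := by
    intro h
    unfold pairFun
    rw [hε]
    by_cases h5 : h = 1
    · subst h5
      rw [one_mul, if_pos rfl, if_pos rfl]
      split_ifs <;> rfl
    · by_cases h6 : h = c
      · subst h6
        rw [hc, if_pos rfl, if_neg h5, if_pos rfl]
      · have h7 : h * c ≠ 1 := by
          intro h8
          apply h6
          have h9 : h * c * c = 1 * c := by rw [h8]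
          rw [mul_assoc, hc, mul_one, one_mul] at h9
          exact h9
        have h8 : h * c ≠ c := by
          intro h8
          apply h5
          exact mul_right_cancel (h8.trans (one_mul c).symm)
        rw [if_neg h7, if_neg h8, if_neg h5, if_neg h6]
  obtain ⟨q, hq⟩ := exists_rat (κ := κ) (reg := reg) (g := g) (fun k => b k + κ c (b k)) x (by
    have h2 : (Matrix.of fun i j => rext κ reg (fun k => b k + κ c (b k)) x (g i * (g j)⁻¹)) =
        (2 : ℝ) • (1 : Matrix ι ι ℝ) := by
      ext i j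
      rw [Matrix.of_apply, h3, h4, pairFun_div (Or.inr hε) hg, Matrix.smul_apply, Matrix.one_apply, smul_eq_mul]
      ring
    rw [h2, Matrix.det_smul, Matrix.det_one, mul_one]
    exact pow_ne_zero _ two_ne_zero)
  refine ⟨_, ?_, hq⟩
  rw [map_sum]
  refine Finset.sum_congr rfl fun k _ => ?_
  rw [map_smul, map_add]
  congr 1
  have h5 : κ c (κ c (b k)) = b k := by
    change (κ c * κ c) (b k) = b k
    rw [← map_mul, hc, map_one]
    rfl
  rw [h5, add_comm]

/-- change of basis -/
theorem vmat_basis (b : Module.Basis ι ℚ V) (v : ι → V) :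
    (vmat κ reg g v).det = (vmat κ reg g b).det * ((b.toMatrix v).det : ℚ) := by
  have h1 : vmat κ reg g v = vmat κ reg g b * (b.toMatrix v).map (Rat.castHom ℝ) := by
    ext i j
    rw [Matrix.mul_apply]
    unfold vmat
    simp only [Matrix.of_apply, Matrix.map_apply]
    conv_lhs => rw [← b.sum_repr (v j)]
    rw [map_sum, map_sum]
    refine Finset.sum_congr rfl fun k _ => ?_
    rw [map_smul, map_smul, Rat.smul_def, mul_comm]
    rfl
  rw [h1, Matrix.det_mul]
  congr 1
  rw [← RingHom.mapMatrix_apply, ← RingHom.map_det]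
  rfl

theorem span_of_det (b : Module.Basis ι ℚ V) (v : ι → V) (hv : (vmat κ reg g v).det ≠ 0) :
    Submodule.span ℚ (Set.range v) = ⊤ := by
  have h1 : (b.toMatrix v).det ≠ 0 := by
    intro h2
    apply hv
    rw [vmat_basis b v, h2, Rat.cast_zero, mul_zero]
  exact ((Module.Basis.is_basis_iff_det b).2 (isUnit_iff_ne_zero.2 h1)).2

theorem mul_inv_fam (g : ι → G) (v : V) :
    (Matrix.of fun i j => reg (κ (g i * (g j)⁻¹) v)) = vmat κ reg g (fun j => κ (g j)⁻¹ v) := by
  ext i j
  unfold vmat
  simp only [Matrix.of_apply]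
  rw [map_mul]
  rfl

end Pool.Agent.R913.Zag
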